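import Pool.Agent.R409.RD.Sh

/-!
# The order and the leading coefficient of `L(H^i(X), s)` at all integers `m < i/2` from finite sums of
traces of Frobenius, without a functional equation

Let `X` be a smooth projective variety over a number field `K` (in the problem `K = ℚ`), `m < i/2` an
integer. Beilinson's conjecture compares the regulator `R_D` on the integral motivic cohomology of `X`
with the leading coefficient `L*(X, m)` of `L(H^i(X), s)` at `s = m`, and the dimension of the Deligne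
cohomology with the order. The problem presupposes only that `L(H^i(X), s)` has a meromorphic
continuation to `s = m`; the functional equation, which would reduce `L*(X, m)` to a value in the region
of absolute convergence, is not known for general `X`. We prove that without it, and without any
hypothesis on the zeros, order and leading coefficient at `m` are explicit limits of finite sums of
traces of Frobenius: for `γ > π/2`, `θ > i/2 + 1 - m` and `κ_γ(u) = e^{iγu} / Γ(1 + u)`,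

`V(T) = ∑ κ_γ(k log q_v / T) Tr(Frob_v^k | H^i(X)) q_v^{-km} / k`, `q_v^k ≤ exp (exp (θ T))`,

satisfies `V(T) = log |L*(X, m)| - π i n - r (log T - Λ_γ) + O(1/T)`, where `r` is the order and `n` is
the number of real zeros minus real poles to the right of `m`. So the order is `ρ` and the leading
coefficient is in `ℚ* R_D` if and only if `T^ρ exp V(T)` converges to an element of
`ℚ* R_D exp(ρ Λ_γ)`.
-/

set_option autoImplicit false

namespace Pool.Agent.Results.MP_15b3df_nt.LeadingTermsFromTraces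

open NumberField IsDedekindDomain Filter Topology
open Pool.Agent.TH958.BV (IsFrobenius)

section defs

variable {K : Type} [Field K] [NumberField K] {n : ℕ}

/-- `α_{v,1}, …, α_{v,N}` are the parameters of the Euler factors of `L(H^i(X), s)`: for almost all
primes `v` these are the eigenvalues of the geometric Frobenius on `H^i(X)`, for all `v` they are
numbers of absolute value at most `q_v^{i/2}` and zeros of a polynomial with real coefficients (at a
bad prime the eigenvalues of Frobenius on the inertia invariants, completed by zeros). -/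
def IsParameter (X : Set (MvPolynomial (Fin n) (𝓞 K))) (d i : ℕ) {N : ℕ}
    (α : HeightOneSpectrum (𝓞 K) → Fin N → ℂ) : Prop :=
  (∀ᶠ v in cofinite, IsFrobenius X d i v (α v)) ∧
    (∀ v j, ‖α v j‖ ≤ (Ideal.absNorm v.asIdeal : ℝ) ^ ((i : ℝ) / 2)) ∧
    ∀ v, ∃ P : Polynomial ℝ,
      P.map (algebraMap ℝ ℂ) = ∏ j, (Polynomial.X - Polynomial.C (α v j))

/-- The L-function `L(H^i(X), s) = ∏_v ∏_j (1 - α_{v,j} q_v^{-s})⁻¹`. -/
noncomputable def LFun {N : ℕ} (α : HeightOneSpectrum (𝓞 K) → Fin N → ℂ) (s : ℂ) : ℂ :=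
  ∏' v : HeightOneSpectrum (𝓞 K), ∏ j, (1 - α v j * (Ideal.absNorm v.asIdeal : ℂ) ^ (-s))⁻¹

/-- `F` is meromorphic at the points of the real segment `[m, i/2 + 1]`, and it is the L-function for
`Re s > i/2 + 1`. -/
def IsContinuation (i : ℕ) (m : ℤ) {N : ℕ} (α : HeightOneSpectrum (𝓞 K) → Fin N → ℂ)
    (F : ℂ → ℂ) : Prop :=
  (∀ x : ℝ, m ≤ x → x ≤ (i : ℝ) / 2 + 1 → MeromorphicAt F (x : ℂ)) ∧
    ∀ s : ℂ, (i : ℝ) / 2 + 1 < s.re → F s = LFun α s

/-- The weight `κ_γ(u) = e^{iγu} / Γ(1 + u)`. -/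
noncomputable def weight (γ u : ℝ) : ℂ :=
  Complex.exp (Complex.I * (γ * u)) / Complex.Gamma (1 + u)

/-- `V(T) = ∑ κ_γ(k log q_v / T) Tr(Frob_v^k | H^i(X)) q_v^{-km} / k`, the sum over the powers
`q_v^k ≤ exp (exp (θ T))`, `k ≥ 1`. -/
noncomputable def traceSum (m : ℤ) {N : ℕ} (α : HeightOneSpectrum (𝓞 K) → Fin N → ℂ)
    (γ θ T : ℝ) : ℂ :=
  ∑ᶠ x ∈ {x : HeightOneSpectrum (𝓞 K) × ℕ | 1 ≤ x.2 ∧
      (Ideal.absNorm x.1.asIdeal : ℝ) ^ x.2 ≤ Real.exp (Real.exp (θ * T))},
    weight γ (x.2 * Real.log (Ideal.absNorm x.1.asIdeal) / T) *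
      ((∑ j, α x.1 j ^ x.2) * ((Ideal.absNorm x.1.asIdeal : ℂ) ^ m)⁻¹ ^ x.2) / x.2

/-- `Λ_γ = ∫_0^∞ (e^{-t} - e^{iγt} / Γ(1 + t)) dt / t`. -/
noncomputable def lam (γ : ℝ) : ℂ :=
  ∫ t in Set.Ioi (0 : ℝ), (Real.exp (-t) - weight γ t) / t

/-- The number of the real zeros minus the number of the real poles of `F` to the right of `m`, with
multiplicities. -/
noncomputable def excess (m : ℤ) (F : ℂ → ℂ) : ℤ :=
  ∑ᶠ x ∈ Set.Ioi (m : ℝ), (meromorphicOrderAt F (x : ℂ)).untop₀

end defs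

section bridge

open Pool.Agent.R409.RC Pool.Agent.R409.RD

variable {K : Type} [Field K] [NumberField K] {n i N : ℕ} {m : ℤ}
  {α : HeightOneSpectrum (𝓞 K) → Fin N → ℂ} {F : ℂ → ℂ}

theorem weight_eq {γ u : ℝ} : weight γ u = Pool.Agent.W187.S2.kk γ u := by
  unfold weight Pool.Agent.W187.S2.kk Pool.Agent.W189.ML.om
  have h1 : Complex.Gamma (1 + u) = ((Real.Gamma (1 + u) : ℝ) : ℂ) := by
    rw [← Complex.Gamma_ofReal]
    push_cast
    rfl
  rw [h1, div_eq_mul_inv]
  push_cast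
  congr 2
  ring

theorem lam_eq (γ : ℝ) : lam γ = Pool.Agent.W187.UR.Lam γ := by
  unfold lam Pool.Agent.W187.UR.Lam
  refine MeasureTheory.integral_congr_ae (Filter.Eventually.of_forall fun t => ?_)
  simp only
  rw [weight_eq]
  unfold Pool.Agent.W187.S2.kk Pool.Agent.W189.ML.om
  push_cast
  rfl

theorem wd {X : Set (MvPolynomial (Fin n) (𝓞 K))} {d : ℕ} (h : IsParameter X d i α) :
    WD (i : ℝ) qv α where
  two_le := two_le_qv
  sum := fun σ hσ => Pool.Agent.H921R2.TatePole.nm_summable hσ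
  norm_le := h.2.1
  real := fun v => RealPoly.ci (h.2.2 v)

theorem traceSum_eq (γ θ T : ℝ) :
    traceSum m α γ θ T = ∑ᶠ x ∈ {x : HeightOneSpectrum (𝓞 K) × ℕ | 1 ≤ x.2 ∧
      qv x.1 ^ x.2 ≤ Real.exp (Real.exp (θ * T))}, pterm qv (shp (m : ℝ) qv α) γ T x.1 x.2 := by
  unfold traceSum
  refine finsum_mem_congr rfl fun x _ => ?_
  have hp : (0 : ℝ) < (Ideal.absNorm x.1.asIdeal : ℝ) := qv_pos x.1
  have h1 : (((qv x.1) ^ (-(m : ℝ)) : ℝ) : ℂ) = ((Ideal.absNorm x.1.asIdeal : ℂ) ^ m)⁻¹ := by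
    unfold qv
    rw [Real.rpow_neg hp.le, Real.rpow_intCast]
    push_cast
    rfl
  unfold pterm shp
  simp only [h1, mul_pow]
  rw [← Finset.sum_mul, weight_eq]
  unfold Pool.Agent.W187.S2.kk qv
  push_cast
  ring

end bridge

/-- **The order and the leading coefficient at `m < i/2` from finite sums of traces of Frobenius.** Let
`X` be a smooth projective variety of dimension `d` over a number field `K`, `m < i/2` an integer, `α`
the parameters of `L(H^i(X), s)`, and let `F` be a continuation of `L(H^i(X), s)` which is meromorphic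
on the real segment `[m, i/2 + 1]`. Then `F` has a finite order `r` at `m` and a real leading
coefficient `l ≠ 0`, and for all `γ > π/2`, `θ > i/2 + 1 - m`:

* `V(T) = log |l| - π i n - r (log T - Λ_γ) + O(1/T)`;
* `ord_{s=m} F = ρ` if and only if `Re V(T_k) / log T_k → - ρ` for one sequence `T_k → ∞`;
* `F` has the order `ρ` and the leading coefficient `B ≠ 0` at `m` if and only if
  `T ^ ρ exp V(T) → B exp(ρ Λ_γ)`;
* for every `R ≠ 0`: `F` has the order `ρ` and a leading coefficient in `ℚ* R` if and only if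
  `T ^ ρ exp V(T)` converges to an element of `ℚ* R exp(ρ Λ_γ)`. -/
theorem result (K : Type) [Field K] [NumberField K] (n : ℕ)
    (X : Set (MvPolynomial (Fin n) (𝓞 K))) (d i N : ℕ) (m : ℤ) (_ : (m : ℝ) < (i : ℝ) / 2)
    (α : HeightOneSpectrum (𝓞 K) → Fin N → ℂ) (_ : IsParameter X d i α) (F : ℂ → ℂ)
    (_ : IsContinuation i m α F) :
    ∃ (r : ℤ) (l : ℝ), l ≠ 0 ∧ meromorphicOrderAt F m = r ∧ meromorphicTrailingCoeffAt F m = l ∧
      ∀ γ θ : ℝ, Real.pi / 2 < γ → (i : ℝ) / 2 + 1 - m < θ →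
        (∃ C T₀ : ℝ, ∀ T : ℝ, T₀ ≤ T →
          ‖traceSum m α γ θ T -
            (Real.log |l| - Real.pi * Complex.I * excess m F - r * (Real.log T - lam γ))‖ ≤
              C / T) ∧
        (∀ ρ : ℤ, meromorphicOrderAt F m = ρ ↔ ∃ T : ℕ → ℝ, Tendsto T atTop atTop ∧
          Tendsto (fun k => (traceSum m α γ θ (T k)).re / Real.log (T k)) atTop (𝓝 (-ρ))) ∧
        (∀ (ρ : ℤ) (B : ℝ), B ≠ 0 →
          ((meromorphicOrderAt F m = ρ ∧ meromorphicTrailingCoeffAt F m = B) ↔
            Tendsto (fun T : ℝ => (T : ℂ) ^ ρ * Complex.exp (traceSum m α γ θ T)) atTop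
              (𝓝 (B * Complex.exp (ρ * lam γ))))) ∧
        ∀ (ρ : ℤ) (R : ℝ), R ≠ 0 →
          ((meromorphicOrderAt F m = ρ ∧ ∃ b : ℚ, b ≠ 0 ∧
              meromorphicTrailingCoeffAt F m = (b * R : ℝ)) ↔
            ∃ b : ℚ, b ≠ 0 ∧
              Tendsto (fun T : ℝ => (T : ℂ) ^ ρ * Complex.exp (traceSum m α γ θ T)) atTop
                (𝓝 ((b * R : ℝ) * Complex.exp (ρ * lam γ)))) := by
  rename_i hmi hα hF
  have h0 : (((m : ℝ) : ℝ) : ℂ) = (m : ℂ) := by push_cast; rfl
  obtain ⟨r, l, hl, h2, hm, hlc, hexp, hlaw⟩ := (wd hα).law_at (m : ℝ) hF.1 fun s hs => by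
    rw [hF.2 s hs]
    rfl
  rw [h0] at h2 hm hlc
  refine ⟨r, l, hl, hm, hlc, fun γ θ hγ hθ => ?_⟩
  have hθ0 : 0 < θ := by linarith
  have hL := hlaw γ θ hγ hθ hθ0
  have h8 : (fun T => ∑ᶠ x ∈ {x : HeightOneSpectrum (𝓞 K) × ℕ | 1 ≤ x.2 ∧
      Pool.Agent.R409.RC.qv x.1 ^ x.2 ≤ Real.exp (Real.exp (θ * T))},
      Pool.Agent.R409.RC.pterm Pool.Agent.R409.RC.qv (Pool.Agent.R409.RD.shp (m : ℝ)
        Pool.Agent.R409.RC.qv α) γ T x.1 x.2) = traceSum m α γ θ := by
    funext T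
    exact (traceSum_eq γ θ T).symm
  rw [h8] at hL
  have h3 : ∀ (ρ : ℤ) (B : ℝ), B ≠ 0 →
      ((meromorphicOrderAt F m = ρ ∧ meromorphicTrailingCoeffAt F m = B) ↔
        Tendsto (fun T : ℝ => (T : ℂ) ^ ρ * Complex.exp (traceSum m α γ θ T)) atTop
          (𝓝 (B * Complex.exp (ρ * lam γ)))) := by
    intro ρ B hB
    rw [hm, hlc, lam_eq]
    have hBc : (B : ℂ) ≠ 0 := by exact_mod_cast hB
    have h1 := hL.iff_exp ρ hBc
    have hexp' : Complex.exp (Real.log |l| - Real.pi * Pool.Agent.R409.RD.excAt (m : ℝ) F *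
        Complex.I) = l := hexp
    rw [hexp'] at h1
    constructor
    · rintro ⟨h2, h3⟩
      refine (h1.1 ⟨by exact_mod_cast h2, h3⟩).congr fun T => ?_
      rw [mul_comm]
    · intro h2
      obtain ⟨h3, h4⟩ := h1.2 (h2.congr fun T => by rw [mul_comm])
      exact ⟨by rw [h3], h4⟩
  refine ⟨?_, fun ρ => ?_, h3, fun ρ R hR => ?_⟩
  · obtain ⟨C, T₀, hC, hT₀, hT⟩ := hL
    refine ⟨C, T₀, fun T h => ?_⟩
    rw [lam_eq]
    refine le_trans (le_of_eq ?_) (hT T h)
    have : excess m F = Pool.Agent.R409.RD.excAt (m : ℝ) F := rfl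
    rw [this]
    congr 1
    ring
  · rw [hm]
    have h1 := hL.iff_seq (ρ : ℝ)
    constructor
    · intro h2
      exact h1.1 (by exact_mod_cast h2)
    · intro h2
      have h3 := h1.2 h2
      have h4 : r = ρ := by exact_mod_cast h3
      rw [h4]
  · constructor
    · rintro ⟨h4, b, hb, h5⟩
      exact ⟨b, hb, (h3 ρ (b * R) (mul_ne_zero (by exact_mod_cast hb) hR)).1 ⟨h4, h5⟩⟩
    · rintro ⟨b, hb, h5⟩
      obtain ⟨h6, h7⟩ := (h3 ρ (b * R) (mul_ne_zero (by exact_mod_cast hb) hR)).2 h5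
      exact ⟨h6, b, hb, h7⟩

end Pool.Agent.Results.MP_15b3df_nt.LeadingTermsFromTraces
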