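import Pool.Agent.R898.KAM

/-!
# Beilinson's conjecture for products of curves, regular surfaces and complete intersections:
# dimensions of integral motivic cohomology

Let `𝒱` be a class of smooth projective varieties over a number field which is closed under products
and contains the projective spaces, `C` their Chow groups with rational coefficients and `W` a Weil
cohomology theory. We call `X` elementary if outside of the degree `dim X` its cohomology consists of
the multiples of the powers of a divisor class: all curves, all regular surfaces and all complete
intersections of positive dimension are elementary.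

Fix `j ≥ 2`. Let `gr X n = H^(i+1)(X, ℚ(n))_ℤ`, where `i = 2n - j - 1`, be the integral motivic
cohomology, the part of weight `n` of `K_j(X)`; the number `m` of the problem is `i + 1 - n`, and
`m < i / 2` means `j > 1`. We use only that correspondences act on these spaces (Scholl). Let
`o X p i` be the dimension of the Deligne cohomology `H_𝒟^(i+1)(X, p; ℝ(n))` of the motive `(X, p)`, or
the order of `L(H^i(X, p), s)` at `s = m`: any function which is additive and which depends only on
the isomorphism class of `H^i(X, p)` up to Tate twists. (The results are true for all `j ≥ 0`.)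

**Theorem.** (1) If `dim H^(i+1)(X, ℚ(n))_ℤ = o X i` for the products `X` of elementary varieties in
the middle degree `i = dim X`, then this is true for these `X` in all degrees `i`, and
`H^(i+1)(X, ℚ(n))_ℤ = 0` if `i < 0`.

(2) Then also `H^(i+1)(X, ℚ(n))_ℤ = π_i H^(i+1)(X, ℚ(n))_ℤ` for Chow–Künneth projectors `π_l` of `X`: the
projectors `π_l`, `l ≠ i`, act as zero.

(3) Suppose moreover that every variety in `𝒱` is dominated by a product of elementary varieties (for
example `𝒱` may be the class of all the varieties dominated by products of curves, which contains the
abelian varieties and the Fermat hypersurfaces) and that Beilinson's formula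
`dim CH^(r+1)(X)_hom = ord_(s=r+1) L(H^(2r+1)(X), s)` holds for the products of elementary varieties of
dimension `2r + 1`. Then for all `X`, `Y` in `𝒱` every correspondence from `X` to `Y` which acts as
zero on `H^i(X)` acts as zero on `H^(i+1)(X, ℚ(n))_ℤ`: integral motivic cohomology depends only on
`H^i`.

The regulator is not used, and neither standard conjectures nor nilpotence or finite-dimensionality
of motives are assumed. The point of (1) is that one equality of dimensions in the middle degree of
`X × ℙ^s` only gives the sum of the equalities for several degrees of `X`.
-/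

open Pool.Agent.H914 Pool.Agent.R903 Pool.Agent.R898

universe u v w

namespace Pool.Agent.Results.MP_15b3df_nt.NumericalMiddleDegree

theorem result {k : Type u} [Field k] {𝒱 : VarClass k} {C : ChowTheory.{u, v} 𝒱}
    (W : WeilTheory.{u, v, w} C) (hPol : C.Polarized) (hP : ∀ s, ∃ P, KA.IsProj C s P)
    (T : KA.MotCoh C) (j : ℕ) (o : ∀ X : 𝒱.Obj, C.CH (X.prod X) → ℕ → ℤ) (ho : KA.IsOrder W o) :
    (KA.MiddleDim W T j o ↔ KA.FullDim W T j o) ∧
      (KA.MiddleDim W T j o → ∀ X, KA.IsProduct W X → KA.Concentrated W T j X) ∧
      (KA.MiddleDim W T j o → (∀ X, ∃ Z, KA.IsProduct W Z ∧ KA.Dominates C Z X) →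
        ∀ o', KA.IsOrder W o' → KA.BBMiddle W o' → KA.OnlyH W T j) :=
  ⟨⟨fun hM => KA.fullDim hP ho hM, fun h X n hX hn => (h X n hX).1 X.dim hn⟩,
    fun hM _ hX => KA.concentrated hP ho hM hX,
    fun hM hdom _ ho' hM' => KA.onlyH hP ho hM hPol hdom ho' hM'⟩

end Pool.Agent.Results.MP_15b3df_nt.NumericalMiddleDegree
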