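import Pool.Agent.R904.RG.Main

/-!
# Beilinson's conjecture on regulators: one diagonal suffices

For `X` smooth projective of dimension `d`, `0 ≤ i ≤ 2 d` and `m < i / 2`, Q1 says that the regulator
gives a rational structure on the Deligne cohomology, and Q2 that its volume is the leading
coefficient of `L(H^i(X), s)` at `s = m`, up to `ℚ^*`.

Let `S` be a class of varieties closed under products with the projective line. Q1 for all `X` in `S`
follows from the cases with `d = i + a`, for any fixed integer `a`. Q1 and Q2 for all `X` in `S`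
follow from the cases with `d = i + a`, for any fixed integer `a ≠ 0`, for example from the cases
`i = d - 1`. The cases `i = d` imply Q2 up to square roots of rational numbers.
-/

set_option autoImplicit false

open Pool.Agent.H914 Pool.Agent.H914.VarClass Pool.Agent.H914.VarClass.Obj
open Pool.Agent.R904.RG

universe u v w

namespace Pool.Agent.Results.MP_15b3df_nt.OneDiagonal

/-- Let `E` be the Euler factors, and let `R` be the integral motivic cohomology
`M X p q = H^p(X, ℚ(q))_ℤ`, the real Deligne cohomology and the regulators, with the formal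
properties `IsEuler` and `IsRegTheory` (products with the projective line `L`, hard Lefschetz). Let
`S` be a class of varieties (for example all those with a regular proper model) which is closed under
products with `L`. The integers `i` and `m` of the problem are `i = p - 1` and `m = p - q`.

1. For every integer `a`: Q1 holds for all `X` in `S` if and only if it holds if `dim X = i + a`.
2. In this case also `H^p(X, ℚ(q))_ℤ = 0` for all `X` in `S`, `p + 1 < 2 q` and `p ≤ 0` or
   `p > 2 dim X + 1`.
3. For every integer `a ≠ 0`: Q1 and Q2 hold for all `X` in `S` (with continuing `L`-functions) if and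
   only if they hold if `dim X = i + a`.
4. If Q1 and Q2 hold for `dim X = i`, then `L^*(X, m)^2` and the square of the volume of the
   regulator agree up to `ℚ^*`, for all `X` in `S`, all `i` and `m`. -/
theorem result {k : Type u} [Field k] {𝒱 : VarClass k} (E : EulerZ 𝒱) (R : RegData.{u, v, w} 𝒱)
    (L : 𝒱.Obj) (hL : L.dim = 1) (S : Set 𝒱.Obj) (hS : ∀ X ∈ S, X.prod L ∈ S)
    (hE : IsEuler E L) (hR : IsRegTheory R L S) :
    (∀ a : ℤ, Everywhere (Q1 R) S ↔ OnDiagonal (Q1 R) S a) ∧
    (∀ a : ℤ, OnDiagonal (Q1 R) S a → ∀ X ∈ S, ∀ p q : ℤ, p + 1 < 2 * q →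
      (p < 1 ∨ 2 * (X.dim : ℤ) + 1 < p) → Subsingleton (R.M X p q)) ∧
    (∀ a : ℤ, a ≠ 0 → (Everywhere (fun X p q => Q1 R X p q ∧ Q2 E R X p q) (Continuing E S) ↔
      OnDiagonal (fun X p q => Q1 R X p q ∧ Q2 E R X p q) (Continuing E S) a)) ∧
    (OnDiagonal (fun X p q => Q1 R X p q ∧ Q2 E R X p q) (Continuing E S) 0 →
      Everywhere (Q2Sq E R) (Continuing E S)) := by
  refine ⟨fun a => ⟨fun h X hX p q h1 h2 h3 _ => h X hX p q h1 h2 h3,
      fun h X hX p q _ _ h3 => Q1_of_diag hR hL hS a h X hX p q h3⟩,
    fun a h X hX p q h1 h2 => subsingleton_of hR hX h1 h2 (Q1_of_diag hR hL hS a h X hX p q h1),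
    fun a ha => ⟨fun h X hX p q h1 h2 h3 _ => h X hX p q h1 h2 h3, fun h X hX p q _ _ h3 => ?_⟩,
    fun h X hX p q _ _ h3 => ?_⟩
  · obtain ⟨h4, _, h5⟩ := key2 hR hE hL hS a h X hX p q h3
    exact ⟨h4, (Q2_iff hX.2 h4).2 (h5 ha)⟩
  · obtain ⟨h4, h5, _⟩ := key2 hR hE hL hS 0 h X hX p q h3
    exact Q2Sq_of hX.2 h4 h5

end Pool.Agent.Results.MP_15b3df_nt.OneDiagonal
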