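import Pool.Agent.R388.SX.Final
set_option autoImplicit false

/-!
Beilinson's conjecture for `K₂` of elliptic curves over number fields (`i = 1`, `m = 0`, `n = 2`; for
an elliptic curve `E` over a number field `K` of degree `6` the Deligne-Beilinson group has dimension
`6`): infinite families of elliptic curves over totally real sextic fields with six unramified
classes in `K₂ ⊗ ℚ` and a regular regulator matrix of size `6`.
-/

namespace Pool.Agent.Results.MP_15b3df_nt.SexticFieldsFullRank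

open Polynomial NumberField

open scoped ComplexConjugate

open Pool.Agent.TH826.MK (KQ symb Unramified Torus)

open Pool.Agent.R388.SX (crv CR Opn toO cO cf ent)

section defs

variable {K : Type*} [Field K]

/-- The units of `K` given by units of the ring of integers. -/
noncomputable def toK (p : Fin 3 → (𝓞 K)ˣ) : Fin 3 → Kˣ :=
  fun i => Units.map (algebraMap (𝓞 K) K : 𝓞 K →* K) (p i)

/-- The relations `p₀ + p₁ + p₂ = -1` and `1 / p₀ + 1 / p₁ + 1 / p₂ = 1`. -/
def Relations (p : Fin 3 → (𝓞 K)ˣ) : Prop :=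
  (toK p 0 : K) + toK p 1 + toK p 2 = -1 ∧
    (toK p 0 : K)⁻¹ + (toK p 1 : K)⁻¹ + (toK p 2 : K)⁻¹ = 1

/-- The parameter `t = 1 / (p₀ p₁ p₂)`. -/
noncomputable def par (p : Fin 3 → (𝓞 K)ˣ) : Kˣ := (toK p 0 * toK p 1 * toK p 2)⁻¹

/-- At the embedding `s (i, 0)` the two units `p_j`, `j ≠ i`, are large, at the embedding
`s (i, 1)` they are small. -/
def NearCusps (c : ℝ) (p : Fin 3 → (𝓞 K)ˣ) (s : Fin 3 × Fin 2 → (K →+* ℂ)) : Prop :=
  (∀ i j, j ≠ i → c ≤ ‖s (i, 0) (toK p j)‖) ∧ ∀ i j, j ≠ i → c * ‖s (i, 1) (toK p j)‖ ≤ 1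

/-- The six symbols `{ent i c 0, ent i c 1}` (`i < 3`, `c < 2`) are unramified at all discrete
valuations of the function field `L` of the curve `crv (par p)`. -/
def UnramifiedSymbols.{u, v} {K : Type u} [Field K] (p : Fin 3 → (𝓞 K)ˣ) : Prop :=
  ∀ (L : Type v) [Field L] [Algebra (CR (par p : K)) L] [IsFractionRing (CR (par p : K)) L],
    ∃ f : Opn (par p : K) (cf (toK p)) →+* L,
      (∀ b : CR (par p : K), f (toO (par p : K) (cf (toK p)) b) =
        algebraMap (CR (par p : K)) L b) ∧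
      ∀ y : Fin 3 × Fin 2, KQ.map 2 f (symb (ent (par p) (toK p) y.1 y.2)) ∈ Unramified L 2

/-- There are loops `Γ x`, `x = (i, c)`, in the complex points over the embeddings `s x` of the open
part of the curve, such that the determinant of the matrix of the regulators of the six symbols on
the six loops does not vanish. -/
def IndependentRegulators (p : Fin 3 → (𝓞 K)ˣ) (s : Fin 3 × Fin 2 → (K →+* ℂ)) : Prop :=
  ∃ Γ : Fin 3 × Fin 2 → Torus (Opn (par p : K) (cf (toK p))) 1,
    (∀ x θ (k : K), (Γ x).e θ (cO (par p : K) (cf (toK p)) k) = s x k) ∧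
    (Matrix.of fun x y : Fin 3 × Fin 2 =>
      (Γ x).reg (symb (ent (par p) (toK p) y.1 y.2))).det ≠ 0

/-- The polynomial `X⁶ + 8 X⁵ + (17 - 4 k²) X⁴ - (17 - 4 k²) X² + 8 X - 1`. -/
noncomputable def sextic (k : ℤ) : ℚ[X] :=
  X ^ 6 + C 8 * X ^ 5 + C (17 - 4 * (k : ℚ) ^ 2) * X ^ 4 - C (17 - 4 * (k : ℚ) ^ 2) * X ^ 2 +
    C 8 * X - 1

end defs

theorem sextic_eq (m : ℤ) : sextic m = Pool.Agent.R388.SX.Qm m := by
  unfold sextic Pool.Agent.R388.SX.Qm Pool.Agent.R388.SX.Pm
  simp [map_ofNat]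

/-- There is a constant `c > 3` with the following properties.

(1) Let `p₀, p₁, p₂` be units of the ring of integers of a number field `K` with
`p₀ + p₁ + p₂ = -1` and `1 / p₀ + 1 / p₁ + 1 / p₂ = 1`, and let `s (i, c)`, `i < 3`, `c < 2`, be
complex embeddings of `K`, such that `|s (i, 0) p_j| ≥ c` and `|s (i, 1) p_j| ≤ 1 / c` for all
`j ≠ i`. Then the six embeddings are different, and the Weierstrass curve
`Y² + (1 - t) X Y - t Y = X³ - t X²` with `t = 1 / (p₀ p₁ p₂)` is smooth. Let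
`m = Y / (X - t)` and `n = -(Y + (1 - t) X - t) / (X - t)`, let
`ψ_i (u) = u (p_i² u + p_i² - 1) / ((1 + p_i) u + p_i)` and `S_i = 1 + ψ_i (n) + ψ_i (m)`. The six
symbols `{ψ_i (n), ψ_i (m)}` and `{-(1 + ψ_i (m)) / S_i, -(1 + ψ_i (n)) / S_i}`, `i < 3`, in
`K₂ ⊗ ℚ` of the function field are unramified at all discrete valuations of the function field, and
there are six loops in the complex points of the curve over the embeddings `s (i, c)`, such that the
determinant of the regulators of the six symbols on the six loops does not vanish.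

(2) For all integers `k ≥ 3 c + 5` the polynomial
`P = X⁶ + 8 X⁵ + (17 - 4 k²) X⁴ - (17 - 4 k²) X² + 8 X - 1` is irreducible over `ℚ`. If `K` is a
number field of degree `6` and `x ∈ K` is a root of `P`, then all embeddings of `K` are real, and
there are units `p₀ = x, p₁, p₂` and an enumeration `s` of the six embeddings of `K` satisfying the
assumptions, and hence also the conclusions, of (1): the elliptic curve over the totally real sextic
field `K` with the parameter `t = 1 / (p₀ p₁ p₂)` has six unramified classes in `K₂ ⊗ ℚ` with a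
regular regulator matrix for loops over the six embeddings. -/
theorem result.{u, v} : ∃ c : ℝ, 3 < c ∧
    (∀ (K : Type u) [Field K] [NumberField K] (p : Fin 3 → (𝓞 K)ˣ)
      (s : Fin 3 × Fin 2 → (K →+* ℂ)), Relations p → NearCusps c p s →
        Function.Injective s ∧ (crv (par p : K)).Δ ≠ 0 ∧ UnramifiedSymbols.{u, v} p ∧
          IndependentRegulators p s) ∧
    ∀ k : ℤ, 3 * c + 5 ≤ k → Irreducible (sextic k) ∧ (sextic k).natDegree = 6 ∧
      ∀ (K : Type u) [Field K] [NumberField K], Module.finrank ℚ K = 6 →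
        ∀ x : K, aeval x (sextic k) = 0 →
          (∀ (φ : K →+* ℂ) (y : K), conj (φ y) = φ y) ∧
          ∃ (p : Fin 3 → (𝓞 K)ˣ) (s : Fin 3 × Fin 2 → (K →+* ℂ)),
            (toK p 0 : K) = x ∧ Relations p ∧ Function.Bijective s ∧ NearCusps c p s ∧
            (crv (par p : K)).Δ ≠ 0 ∧ UnramifiedSymbols.{u, v} p ∧
            IndependentRegulators p s := by
  obtain ⟨c, hc, hmain⟩ := Pool.Agent.R388.SX.exists_c
  have part1 : ∀ (K : Type u) [Field K] [NumberField K] (p : Fin 3 → (𝓞 K)ˣ)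
      (s : Fin 3 × Fin 2 → (K →+* ℂ)), Relations p → NearCusps c p s →
        Function.Injective s ∧ (crv (par p : K)).Δ ≠ 0 ∧ UnramifiedSymbols.{u, v} p ∧
          IndependentRegulators p s := by
    intro K _ _ p s hr hs
    have hp : Pool.Agent.R388.SX.Rel (cf (toK p)) :=
      ⟨fun i => (toK p i).ne_zero, hr.1, hr.2⟩
    have ht : ((par p : Kˣ) : K) = Pool.Agent.R388.SX.tp (cf (toK p)) := by
      unfold par Pool.Agent.R388.SX.tp cf
      push_cast
      rfl
    obtain ⟨h1, Γ, h2, h3⟩ := hmain K (toK p) (par p) hp ht s hs.1 hs.2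
    refine ⟨Pool.Agent.R388.SX.inj_of hc hp hs.1 hs.2, Pool.Agent.R388.SX.disc_ne _ h1, ?_,
      Γ, h2, h3⟩
    intro L _ _ _
    obtain ⟨f, hf⟩ := Pool.Agent.R388.SX.exists_hom (t := par p) (p := toK p) (L := L)
      ⟨(Γ (0, 0)).e 0⟩
    refine ⟨f, hf, fun y => Pool.Agent.R388.SX.unram hp ht (fun i => ?_) (fun i => ?_) f y.1 y.2⟩
    · exact (p i : 𝓞 K).2
    · have e : ((toK p i : Kˣ) : K)⁻¹ = (((p i)⁻¹ : (𝓞 K)ˣ) : 𝓞 K) := by
        unfold toK
        rw [← Units.val_inv_eq_inv_val, ← map_inv]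
        rfl
      rw [e]
      exact (((p i)⁻¹ : (𝓞 K)ˣ) : 𝓞 K).2
  refine ⟨c, hc, part1, fun m hm => ?_⟩
  have hm11 : (11 : ℤ) ≤ m := by
    have h1 : (11 : ℝ) ≤ (m : ℝ) := by linarith
    exact_mod_cast h1
  rw [sextic_eq]
  refine ⟨Pool.Agent.R388.SX.Qm_irred hm11, Pool.Agent.R388.SX.Qm_natDegree m, ?_⟩
  intro K _ _ hd x hx
  have hE : Pool.Agent.R388.SX.EQ (m : K) x := by
    rw [Pool.Agent.R388.SX.aeval_Qm] at hx
    exact hx
  have hm0 : (m : K) ≠ 0 := by
    have : m ≠ 0 := by omega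
    exact_mod_cast this
  have hRel := hE.rel two_ne_zero hm0
  have hU := hE.units_int two_ne_zero hm0
  have hi : ∀ i, IsIntegral ℤ (Pool.Agent.R388.SX.w3 (m : K) x i) := by
    intro i
    fin_cases i
    · exact hE.x_int
    · exact hU.1.1
    · exact hU.2.1
  have hi' : ∀ i, IsIntegral ℤ (Pool.Agent.R388.SX.w3 (m : K) x i)⁻¹ := by
    intro i
    fin_cases i
    · exact hE.x_inv_int
    · exact hU.1.2
    · exact hU.2.2
  obtain ⟨s, hs1, hs2, hs3⟩ := Pool.Agent.R388.SX.exists_s hm11 hm (by linarith) hE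
  let p : Fin 3 → (𝓞 K)ˣ := fun i => ⟨⟨_, hi i⟩, ⟨_, hi' i⟩,
    Subtype.ext (mul_inv_cancel₀ (hRel.ne i)), Subtype.ext (inv_mul_cancel₀ (hRel.ne i))⟩
  have hp : ∀ i, ((toK p i : Kˣ) : K) = Pool.Agent.R388.SX.w3 (m : K) x i := fun _ => rfl
  have hr : Relations p := ⟨hRel.sum, hRel.inv⟩
  have hn : NearCusps c p s := ⟨hs2, hs3⟩
  obtain ⟨a1, a2, a3, a4⟩ := part1 K p s hr hn
  have hb := Pool.Agent.R388.SX.bij_of a1 hd
  refine ⟨fun φ y => ?_, p, s, rfl, hr, hb, hn, a2, a3, a4⟩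
  obtain ⟨z, rfl⟩ := hb.2 φ
  obtain ⟨r, hr'⟩ := hs1 z
  have h1 : (starRingEnd ℂ).comp (s z) = s z := by
    refine Pool.Agent.R388.SX.emb_ext hm11 hE hd ?_
    rw [RingHom.comp_apply, hr', Complex.conj_ofReal]
  exact RingHom.congr_fun h1 y

end Pool.Agent.Results.MP_15b3df_nt.SexticFieldsFullRank
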